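import Pool.Agent.helper62.VQ.SpecE

/-!
# Row vqe:UVX (MP_07c750_an): Lipschitz estimates for the synchronised system
-/

set_option autoImplicit false

open scoped MatrixGroups ContDiff Topology UpperHalfPlane
open UpperHalfPlane MeasureTheory Filter Set

namespace Pool.Agent.VQE

open Pool.Agent.RS

noncomputable section

theorem UVX_pm {x y α β : ℝ} (h1 : |x| ≤ α) (h2 : |y| ≤ β) : |x * y| ≤ α * β := by
  rw [abs_mul]
  exact mul_le_mul h1 h2 (abs_nonneg _) ((abs_nonneg _).trans h1)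

theorem UVX_pd {x x' y y' α β γ ε : ℝ} (h1 : |x - x'| ≤ α) (h2 : |y| ≤ β) (h3 : |x'| ≤ γ)
    (h4 : |y - y'| ≤ ε) : |x * y - x' * y'| ≤ α * β + γ * ε := by
  have h5 : x * y - x' * y' = (x - x') * y + x' * (y - y') := by ring
  rw [h5]
  exact (abs_add_le _ _).trans (add_le_add (UVX_pm h1 h2) (UVX_pm h3 h4))

theorem UVX_add {x y α β : ℝ} (h1 : |x| ≤ α) (h2 : |y| ≤ β) : |x + y| ≤ α + β :=
  (abs_add_le _ _).trans (add_le_add h1 h2)

theorem UVX_sub {x y α β : ℝ} (h1 : |x| ≤ α) (h2 : |y| ≤ β) : |x - y| ≤ α + β :=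
  (abs_sub _ _).trans (add_le_add h1 h2)

/-- the square root -/
theorem UVX_bc {b c : ℝ} (hb : |b| ≤ 1 / 8) (hc : |c| ≤ 1 / 8) : |b * c| ≤ 1 / 64 := by
  have := UVX_pm hb hc
  norm_num at this ⊢
  exact this

theorem UVX_sq {b c : ℝ} (hb : |b| ≤ 1 / 8) (hc : |c| ≤ 1 / 8) :
    99 / 100 ≤ √(1 + b * c) ∧ √(1 + b * c) ≤ 101 / 100 ∧
      √(1 + b * c) * √(1 + b * c) = 1 + b * c := by
  have h1 := abs_le.1 (UVX_bc hb hc)
  refine ⟨?_, ?_, ?_⟩
  · apply Real.le_sqrt_of_sq_le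
    nlinarith [h1.1]
  · apply Real.sqrt_le_iff.2
    constructor
    · norm_num
    · nlinarith [h1.2]
  · apply Real.mul_self_sqrt
    nlinarith [h1.1]

theorem UVX_sd {b c b' c' : ℝ} (hb : |b| ≤ 1 / 8) (hc : |c| ≤ 1 / 8) (hb' : |b'| ≤ 1 / 8)
    (hc' : |c'| ≤ 1 / 8) :
    |√(1 + b * c) - √(1 + b' * c')| ≤ (|b - b'| + |c - c'|) / 15 := by
  obtain ⟨h1, h2, h3⟩ := UVX_sq hb hc
  obtain ⟨h1', h2', h3'⟩ := UVX_sq hb' hc'
  set a := √(1 + b * c)
  set a' := √(1 + b' * c')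
  have h4 : |b * c - b' * c'| ≤ |b - b'| * (1 / 8) + 1 / 8 * |c - c'| :=
    UVX_pd le_rfl hc hb' le_rfl
  have h5 : b * c - b' * c' = (a - a') * (a + a') := by ring_nf; nlinarith
  rw [h5, abs_mul] at h4
  have h6 : (198 / 100 : ℝ) ≤ |a + a'| := by
    rw [abs_of_nonneg (by linarith)]
    linarith
  have h7 : |a - a'| * (198 / 100) ≤ |a - a'| * |a + a'| :=
    mul_le_mul_of_nonneg_left h6 (abs_nonneg _)
  have h8 := abs_nonneg (b - b')
  have h9 := abs_nonneg (c - c')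
  linarith

theorem UVX_dg {b c : ℝ} (hb : |b| ≤ 1 / 8) (hc : |c| ≤ 1 / 8) :
    (dg b c).1 = !![√(1 + b * c), b; c, √(1 + b * c)] := by
  have h1 := abs_le.1 (UVX_bc hb hc)
  have h2 : 0 ≤ 1 + b * c := by linarith [h1.1]
  unfold dg
  rw [dif_pos h2]

theorem UVX_nm {D D' : SL(2, ℝ)} {a b c a' b' c' : ℝ} (hD : D.1 = !![a, b; c, a])
    (hD' : D'.1 = !![a', b'; c', a']) :
    nm (D⁻¹ * D') = max (max |a * a' - b * c' - 1| |a * b' - b * a'|)
      (max |a * c' - c * a'| |a * a' - c * b' - 1|) := by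
  have h1 : (D⁻¹ * D').1 = !![a * a' - b * c', a * b' - b * a'; a * c' - c * a', a * a' - c * b'] := by
    have h2 : (D⁻¹ * D').1 = D⁻¹.1 * D'.1 := rfl
    have h3 : D⁻¹.1 = D.1.adjugate := rfl
    rw [h2, h3, hD, hD', Matrix.adjugate_fin_two_of, Matrix.mul_fin_two]
    congr 1
    ext i j
    fin_cases i <;> fin_cases j <;> simp <;> ring
  unfold nm
  rw [h1]
  rfl

theorem UVX_nd {b c b' c' : ℝ} (hb : |b| ≤ 1 / 8) (hc : |c| ≤ 1 / 8) (hb' : |b'| ≤ 1 / 8)
    (hc' : |c'| ≤ 1 / 8) :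
    nm ((dg b c)⁻¹ * dg b' c') ≤ 2 * (|b - b'| + |c - c'|) := by
  rw [UVX_nm (UVX_dg hb hc) (UVX_dg hb' hc')]
  obtain ⟨h1, h2, h3⟩ := UVX_sq hb hc
  obtain ⟨h1', h2', h3'⟩ := UVX_sq hb' hc'
  have h4 := UVX_sd hb hc hb' hc'
  set a := √(1 + b * c)
  set a' := √(1 + b' * c')
  set u := |b - b'| with hu
  set v := |c - c'| with hv
  have hu0 : 0 ≤ u := abs_nonneg _
  have hv0 : 0 ≤ v := abs_nonneg _
  have ha : |a| ≤ 101 / 100 := by rw [abs_of_nonneg (by linarith)]; exact h2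
  have e1 : a * a' - b * c' - 1 = -(a * (a - a')) + b * (c - c') := by nlinarith
  have e2 : a * a' - c * b' - 1 = -(a * (a - a')) + c * (b - b') := by nlinarith
  have e3 : a * b' - b * a' = -(a * (b - b')) + b * (a - a') := by ring
  have e4 : a * c' - c * a' = -(a * (c - c')) + c * (a - a') := by ring
  have f1 : |-(a * (a - a'))| ≤ 101 / 100 * ((u + v) / 15) := by rw [abs_neg]; exact UVX_pm ha h4
  have f3 : |-(a * (b - b'))| ≤ 101 / 100 * u := by rw [abs_neg]; exact UVX_pm ha le_rfl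
  have f4 : |-(a * (c - c'))| ≤ 101 / 100 * v := by rw [abs_neg]; exact UVX_pm ha le_rfl
  rw [e1, e2, e3, e4]
  refine max_le (max_le ?_ ?_) (max_le ?_ ?_)
  · have := UVX_add f1 (UVX_pm hb (le_refl v)); linarith
  · have := UVX_add f3 (UVX_pm hb h4); linarith
  · have := UVX_add f4 (UVX_pm hc h4); linarith
  · have := UVX_add f1 (UVX_pm hc (le_refl u)); linarith

/-- the numbers -/
structure UVX_N (δ a b c P Q p2 q2 : ℝ) : Prop where
  d0 : 0 ≤ δ
  d1 : δ ≤ 1 / 100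
  a0 : 99 / 100 ≤ a
  a1 : a ≤ 101 / 100
  b1 : |b| ≤ 1 / 8
  c1 : |c| ≤ 1 / 8
  P1 : |P - 1| ≤ δ
  Q1 : |Q| ≤ δ
  p2 : |p2 - 1| ≤ δ
  q2 : |q2| ≤ δ

theorem UVX_N.den {δ a b c P Q p2 q2 : ℝ} (h : UVX_N δ a b c P Q p2 q2) :
    97 / 100 ≤ a * p2 + (b + c) * q2 := by
  have h1 := abs_le.1 h.p2
  have h2 : |(b + c) * q2| ≤ (1 / 8 + 1 / 8) * δ := UVX_pm (UVX_add h.b1 h.c1) h.q2
  have h3 := abs_le.1 h2
  have h4 : 99 / 100 * (1 - δ) ≤ a * p2 := by
    apply mul_le_mul h.a0 (by linarith [h1.1]) (by linarith [h.d1]) (by linarith [h.a0])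
  have := h.d1
  have := h.d0
  linarith [h3.1]

theorem UVX_N.den0 {δ a b c P Q p2 q2 : ℝ} (h : UVX_N δ a b c P Q p2 q2) :
    a * p2 + (b + c) * q2 ≠ 0 := by
  have := h.den
  intro h0
  linarith

theorem UVX_N.abs_a {δ a b c P Q p2 q2 : ℝ} (h : UVX_N δ a b c P Q p2 q2) : |a| ≤ 101 / 100 := by
  rw [abs_of_nonneg (by linarith [h.a0])]
  exact h.a1

theorem UVX_N.s1 {δ a b c P Q p2 q2 : ℝ} (h : UVX_N δ a b c P Q p2 q2) :
    (a * P - (b + c) * Q) / (a * p2 + (b + c) * q2) - 1 =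
      (a * (P - p2) - (b + c) * (Q + q2)) / (a * p2 + (b + c) * q2) := by
  rw [div_sub_one h.den0]
  congr 1
  ring

theorem UVX_div {x y α : ℝ} (hx : |x| ≤ α) (hy : 97 / 100 ≤ y) : |x / y| ≤ α * (100 / 97) := by
  rw [abs_div, div_le_iff₀ (by rw [abs_pos]; intro h; linarith)]
  rw [abs_of_nonneg (by linarith : (0 : ℝ) ≤ y)]
  have h0 : 0 ≤ α := (abs_nonneg _).trans hx
  nlinarith

/-- rough bound for `s - 1` -/
theorem UVX_N.s2 {δ a b c P Q p2 q2 : ℝ} (h : UVX_N δ a b c P Q p2 q2) :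
    |(a * P - (b + c) * Q) / (a * p2 + (b + c) * q2) - 1| ≤ 27 / 10 * δ := by
  rw [h.s1]
  have h1 : |P - p2| ≤ 2 * δ := by
    have := UVX_sub h.P1 h.p2
    rw [show P - 1 - (p2 - 1) = P - p2 by ring] at this
    linarith
  have h2 : |Q + q2| ≤ 2 * δ := by have := UVX_add h.Q1 h.q2; linarith
  have h3 := UVX_sub (UVX_pm h.abs_a h1) (UVX_pm (UVX_add h.b1 h.c1) h2)
  refine (UVX_div h3 h.den).trans ?_
  have := h.d0
  nlinarith

/-- the two systems -/
structure UVX_M (m δ a b c P Q p2 q2 a' b' c' p2' q2' : ℝ) : Prop where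
  x : UVX_N δ a b c P Q p2 q2
  y : UVX_N δ a' b' c' P Q p2' q2'
  da : |a - a'| ≤ m / 15
  db : |b - b'| ≤ m
  dc : |c - c'| ≤ m
  dbc : |b - b'| + |c - c'| ≤ m
  dp : |p2 - p2'| ≤ 2 * δ * m
  dq : |q2 - q2'| ≤ 2 * δ * m

theorem UVX_M.sd {m δ a b c P Q p2 q2 a' b' c' p2' q2' : ℝ}
    (h : UVX_M m δ a b c P Q p2 q2 a' b' c' p2' q2') :
    |(a * P - (b + c) * Q) / (a * p2 + (b + c) * q2) -
      (a' * P - (b' + c') * Q) / (a' * p2' + (b' + c') * q2')| ≤ 6 * δ * m := by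
  have hm : 0 ≤ m := (abs_nonneg _).trans h.db
  have hδ := h.x.d0
  have hδ1 := h.x.d1
  have h1 : |P - p2| ≤ 2 * δ := by
    have := UVX_sub h.x.P1 h.x.p2
    rw [show P - 1 - (p2 - 1) = P - p2 by ring] at this
    linarith
  have h1' : |P - p2'| ≤ 2 * δ := by
    have := UVX_sub h.x.P1 h.y.p2
    rw [show P - 1 - (p2' - 1) = P - p2' by ring] at this
    linarith
  have h2 : |Q + q2| ≤ 2 * δ := by have := UVX_add h.x.Q1 h.x.q2; linarith
  have h2' : |Q + q2'| ≤ 2 * δ := by have := UVX_add h.x.Q1 h.y.q2; linarith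
  have hbc : |b + c - (b' + c')| ≤ m := by
    have := abs_add_le (b - b') (c - c')
    rw [show b - b' + (c - c') = b + c - (b' + c') by ring] at this
    exact this.trans h.dbc
  have hP : |P - p2 - (P - p2')| ≤ 2 * δ * m := by
    rw [show P - p2 - (P - p2') = -(p2 - p2') by ring, abs_neg]
    exact h.dp
  have hQ : |Q + q2 - (Q + q2')| ≤ 2 * δ * m := by
    rw [show Q + q2 - (Q + q2') = q2 - q2' by ring]
    exact h.dq
  set E := a * (P - p2) - (b + c) * (Q + q2) with hE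
  set E' := a' * (P - p2') - (b' + c') * (Q + q2') with hE'
  set d := a * p2 + (b + c) * q2 with hd
  set d' := a' * p2' + (b' + c') * q2' with hd'
  have hEE : |E - E'| ≤ 467 / 100 * (δ * m) := by
    have e1 := UVX_pd h.da h1 h.y.abs_a hP
    have e2 := UVX_pd hbc h2 (UVX_add h.y.b1 h.y.c1) hQ
    have e3 := UVX_sub e1 e2
    rw [show a * (P - p2) - a' * (P - p2') - ((b + c) * (Q + q2) - (b' + c') * (Q + q2')) =
      E - E' by rw [hE, hE']; ring] at e3
    refine e3.trans ?_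
    have : 0 ≤ δ * m := mul_nonneg hδ hm
    nlinarith
  have hE'b : |E'| ≤ 26 / 10 * δ := by
    have := UVX_sub (UVX_pm h.y.abs_a h1') (UVX_pm (UVX_add h.y.b1 h.y.c1) h2')
    refine this.trans ?_
    linarith
  have hp2 : |p2| ≤ 101 / 100 := by
    have := UVX_add h.x.p2 (le_of_eq (abs_one (α := ℝ)))
    rw [sub_add_cancel] at this
    linarith
  have hdd : |d' - d| ≤ 11 / 100 * m := by
    have e1 := UVX_pd h.da hp2 h.y.abs_a h.dp
    have e2 := UVX_pd hbc h.x.q2 (UVX_add h.y.b1 h.y.c1) h.dq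
    have e3 := UVX_add e1 e2
    rw [show a * p2 - a' * p2' + ((b + c) * q2 - (b' + c') * q2') = d - d' by rw [hd, hd']; ring,
      abs_sub_comm] at e3
    refine e3.trans ?_
    have : δ * m ≤ 1 / 100 * m := mul_le_mul_of_nonneg_right hδ1 hm
    nlinarith
  have key : (a * P - (b + c) * Q) / d - (a' * P - (b' + c') * Q) / d' =
      (E - E') / d + E' * (d' - d) / d' / d := by
    have e1 := h.x.s1
    have e2 := h.y.s1
    have e3 : (a * P - (b + c) * Q) / d - (a' * P - (b' + c') * Q) / d' = E / d - E' / d' := by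
      linarith
    rw [e3]
    have n1 : d ≠ 0 := h.x.den0
    have n2 : d' ≠ 0 := h.y.den0
    field_simp
    ring
  rw [key]
  have k1 := UVX_div hEE h.x.den
  have k2 := UVX_div (UVX_div (UVX_pm hE'b hdd) h.y.den) h.x.den
  refine (UVX_add k1 k2).trans ?_
  have : 0 ≤ δ * m := mul_nonneg hδ hm
  nlinarith

theorem UVX_M.hd {m δ a b c P Q p2 q2 a' b' c' p2' q2' : ℝ}
    (h : UVX_M m δ a b c P Q p2 q2 a' b' c' p2' q2') (x x' : ℝ) (hx' : |x'| ≤ 1 / 8)
    (hxx : |x - x'| ≤ m) :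
    |(((p2 * ((a * P - (b + c) * Q) / (a * p2 + (b + c) * q2)) + P) / 2 - 1) * x +
        a * (q2 * ((a * P - (b + c) * Q) / (a * p2 + (b + c) * q2)) - Q)) -
      (((p2' * ((a' * P - (b' + c') * Q) / (a' * p2' + (b' + c') * q2')) + P) / 2 - 1) * x' +
        a' * (q2' * ((a' * P - (b' + c') * Q) / (a' * p2' + (b' + c') * q2')) - Q))| ≤
      50 * δ * m := by
  have hm : 0 ≤ m := (abs_nonneg _).trans h.db
  have hδ := h.x.d0
  have hδ1 := h.x.d1
  have hδm : 0 ≤ δ * m := mul_nonneg hδ hm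
  have hδδm : δ * (δ * m) ≤ 1 / 100 * (δ * m) := mul_le_mul_of_nonneg_right hδ1 hδm
  have s2 := h.x.s2
  have sd := h.sd
  set s := (a * P - (b + c) * Q) / (a * p2 + (b + c) * q2)
  set s' := (a' * P - (b' + c') * Q) / (a' * p2' + (b' + c') * q2')
  have hs : |s| ≤ 103 / 100 := by
    have := UVX_add s2 (le_of_eq (abs_one (α := ℝ)))
    rw [sub_add_cancel] at this
    linarith
  have hp2' : |p2'| ≤ 101 / 100 := by
    have := UVX_add h.y.p2 (le_of_eq (abs_one (α := ℝ)))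
    rw [sub_add_cancel] at this
    linarith
  have F1 := UVX_pd h.dp hs hp2' sd
  have G1 := UVX_pd h.dq hs h.y.q2 sd
  have F0 : |p2 * s + P - 2| ≤ 474 / 100 * δ := by
    have e1 := UVX_add (UVX_add (UVX_pm h.x.p2 hs) s2) h.x.P1
    rw [show (p2 - 1) * s + (s - 1) + (P - 1) = p2 * s + P - 2 by ring] at e1
    linarith
  have G0 : |q2 * s - Q| ≤ 203 / 100 * δ := by
    have := UVX_sub (UVX_pm h.x.q2 hs) h.x.Q1
    linarith
  have hG : |q2 * s - Q - (q2' * s' - Q)| ≤ 213 / 100 * (δ * m) := by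
    rw [show q2 * s - Q - (q2' * s' - Q) = q2 * s - q2' * s' by ring]
    refine G1.trans ?_
    nlinarith
  have A1 := UVX_pd h.da G0 h.y.abs_a hG
  have hF : |(p2 * s + P) / 2 - 1| ≤ 237 / 100 * δ := by
    rw [show (p2 * s + P) / 2 - 1 = (p2 * s + P - 2) / 2 by ring, abs_div,
      abs_of_pos (by norm_num : (0 : ℝ) < 2)]
    linarith
  have hFF : |(p2 * s + P) / 2 - 1 - ((p2' * s' + P) / 2 - 1)| ≤ 407 / 100 * (δ * m) := by
    rw [show (p2 * s + P) / 2 - 1 - ((p2' * s' + P) / 2 - 1) = (p2 * s - p2' * s') / 2 by ring,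
      abs_div, abs_of_pos (by norm_num : (0 : ℝ) < 2)]
    have : |p2 * s - p2' * s'| ≤ 814 / 100 * (δ * m) := by
      refine F1.trans ?_
      nlinarith
    linarith
  have A2 : |((p2 * s + P) / 2 - 1) * x - ((p2' * s' + P) / 2 - 1) * x'| ≤
      237 / 100 * δ * m + 1 / 8 * (407 / 100 * (δ * m)) := by
    have e1 := UVX_add (UVX_pm hF hxx) (UVX_pm hx' hFF)
    rw [show ((p2 * s + P) / 2 - 1) * (x - x') +
      x' * ((p2 * s + P) / 2 - 1 - ((p2' * s' + P) / 2 - 1)) =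
      ((p2 * s + P) / 2 - 1) * x - ((p2' * s' + P) / 2 - 1) * x' by ring] at e1
    exact e1
  have A3 := UVX_add A2 A1
  rw [show ((p2 * s + P) / 2 - 1) * x - ((p2' * s' + P) / 2 - 1) * x' +
      (a * (q2 * s - Q) - a' * (q2' * s' - Q)) =
      (((p2 * s + P) / 2 - 1) * x + a * (q2 * s - Q)) -
      (((p2' * s' + P) / 2 - 1) * x' + a' * (q2' * s' - Q)) by ring] at A3
  refine A3.trans ?_
  nlinarith

theorem UVX_proof (h1 : NMB_stmt) : UVX_stmt := by
  obtain ⟨nm0, nm1, nminv, -, -, -, nmc, nmdg, -⟩ := h1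
  intro δ p q hδ hδ1 hF
  have nmone : nm (1 : SL(2, ℝ)) = 0 := (nm1 1).2 rfl
  have cont : ∀ p : SL(2, ℝ) → ℝ, (∀ g D, |p (g * D) - p g| ≤ δ * nm D) → Continuous p := by
    intro p hp
    rw [continuous_iff_continuousAt]
    intro g
    have h2 : Tendsto (fun g' : SL(2, ℝ) => δ * nm (g⁻¹ * g')) (𝓝 g) (𝓝 0) := by
      have h3 : Continuous (fun g' : SL(2, ℝ) => δ * nm (g⁻¹ * g')) :=
        continuous_const.mul (nmc.comp (continuous_const.mul continuous_id))
      have h4 := h3.tendsto g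
      rw [inv_mul_cancel, nmone, mul_zero] at h4
      exact h4
    rw [ContinuousAt, tendsto_iff_dist_tendsto_zero]
    refine squeeze_zero (fun _ => dist_nonneg) (fun g' => ?_) h2
    have h5 := hp g (g⁻¹ * g')
    rw [mul_inv_cancel_left] at h5
    exact h5
  have cp := cont p hF.p1
  have cq := cont q hF.q1
  have hN : ∀ (g : SL(2, ℝ)) (b c : ℝ), |b| ≤ 1 / 8 → |c| ≤ 1 / 8 →
      UVX_N δ (√(1 + b * c)) b c (p g) (q g) (p (g * dg b c)) (q (g * dg b c)) := by
    intro g b c hb hc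
    obtain ⟨e1, e2, -⟩ := UVX_sq hb hc
    exact ⟨hδ, hδ1, e1, e2, hb, hc, hF.p0 g, hF.q0 g, hF.p0 _, hF.q0 _⟩
  refine ⟨cp, cq, fun b c b' c' hb hc hb' hc' => ?_⟩
  have hM : ∀ g : SL(2, ℝ), UVX_M (|b - b'| + |c - c'|) δ (√(1 + b * c)) b c (p g) (q g)
      (p (g * dg b c)) (q (g * dg b c)) (√(1 + b' * c')) b' c' (p (g * dg b' c'))
      (q (g * dg b' c')) := by
    intro g
    have k0 : ∀ f : SL(2, ℝ) → ℝ, (∀ g D, |f (g * D) - f g| ≤ δ * nm D) →
        |f (g * dg b c) - f (g * dg b' c')| ≤ 2 * δ * (|b - b'| + |c - c'|) := by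
      intro f hf
      have k1 := hf (g * dg b c) ((dg b c)⁻¹ * dg b' c')
      rw [mul_assoc, mul_inv_cancel_left, abs_sub_comm] at k1
      refine k1.trans ?_
      have k2 := mul_le_mul_of_nonneg_left (UVX_nd hb hc hb' hc') hδ
      linarith
    exact ⟨hN g b c hb hc, hN g b' c' hb' hc', UVX_sd hb hc hb' hc',
      le_add_of_nonneg_right (abs_nonneg _), le_add_of_nonneg_left (abs_nonneg _), le_rfl,
      k0 p hF.p1, k0 q hF.q1⟩
  have csg : Continuous (fun g => sg p q g b c) := by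
    unfold sg
    refine Continuous.div ?_ ?_ (fun g => (hN g b c hb hc).den0)
    · exact (continuous_const.mul cp).sub (continuous_const.mul cq)
    · exact (continuous_const.mul (cp.comp (continuous_id.mul continuous_const))).add
        (continuous_const.mul (cq.comp (continuous_id.mul continuous_const)))
  have ch : ∀ x : ℝ, Continuous (fun g => ((p (g * dg b c) * sg p q g b c + p g) / 2 - 1) * x +
      √(1 + b * c) * (q (g * dg b c) * sg p q g b c - q g)) := by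
    intro x
    have e1 : Continuous (fun g => p (g * dg b c)) := cp.comp (continuous_id.mul continuous_const)
    have e2 : Continuous (fun g => q (g * dg b c)) := cq.comp (continuous_id.mul continuous_const)
    exact ((((e1.mul csg).add cp).div_const 2).sub continuous_const).mul continuous_const |>.add
      (continuous_const.mul ((e2.mul csg).sub cq))
  refine ⟨fun g => ?_, fun g => ?_, fun g => ?_, fun g => ?_, ch b, ch c, csg⟩
  · exact (hM g).hd b b' hb' (hM g).db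
  · exact (hM g).hd c c' hc' (hM g).dc
  · have h := hN g b c hb hc
    show |(√(1 + b * c) * p g - (b + c) * q g) /
      (√(1 + b * c) * p (g * dg b c) + (b + c) * q (g * dg b c)) - 1| ≤ _
    rw [h.s1]
    have e1 : |p g - p (g * dg b c)| ≤ δ * (|b| + |c|) := by
      rw [abs_sub_comm]
      refine (hF.p1 g (dg b c)).trans (mul_le_mul_of_nonneg_left ?_ hδ)
      exact (nmdg b c hb hc).trans (max_le (le_add_of_nonneg_right (abs_nonneg _))
        (le_add_of_nonneg_left (abs_nonneg _)))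
    have e2 : |q g + q (g * dg b c)| ≤ δ + δ := UVX_add h.Q1 h.q2
    have e3 := UVX_sub (UVX_pm h.abs_a e1) (UVX_pm (abs_add_le b c) e2)
    refine (UVX_div e3 h.den).trans ?_
    have e4 : 0 ≤ δ * (|b| + |c|) := mul_nonneg hδ (add_nonneg (abs_nonneg _) (abs_nonneg _))
    nlinarith
  · have h0 : √(1 + (0 : ℝ) * 0) = 1 := by norm_num
    have hd : dg 0 0 = 1 := by
      apply Subtype.ext
      rw [UVX_dg (by norm_num) (by norm_num), h0]
      ext i j
      fin_cases i <;> fin_cases j <;> simp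
    have hs : sg p q g 0 0 = 1 := by
      unfold sg
      rw [h0, hd, mul_one]
      have hp : p g ≠ 0 := by
        have := abs_le.1 (hF.p0 g)
        intro h
        rw [h] at this
        linarith [this.1]
      simp [hp]
    constructor
    · unfold hu
      simp only [hs, h0, hd, mul_one]
      ring
    · unfold hv
      simp only [hs, h0, hd, mul_one]
      ring

end

end Pool.Agent.VQE
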